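import Mathlib

set_option autoImplicit false

open Filter Topology Set Function

namespace Pool.Agent.H.MP_38d52f_an

/-- The closed cone dual to the finite signed point evaluations that are nonnegative on all
decreasing exponentials. -/
def Cn (g : ℝ → ℝ) : Prop :=
  ∀ (ι : Type) [Fintype ι] (w t : ι → ℝ), (∀ i, 0 < t i) →
    (∀ c, 0 ≤ c → 0 ≤ ∑ i, w i * Real.exp (-(c * t i))) → 0 ≤ ∑ i, w i * g (t i)

theorem Cn_exp {c : ℝ} (hc : 0 ≤ c) : Cn (fun t => Real.exp (-(c * t))) :=
  fun _ _ _ _ _ h => h c hc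

theorem Cn_congr {g h : ℝ → ℝ} (hg : Cn g) (e : ∀ t, 0 < t → g t = h t) : Cn h := by
  intro ι _ w t ht H
  have := hg ι w t ht H
  rwa [Finset.sum_congr rfl (fun i _ => by rw [e (t i) (ht i)])] at this

theorem Cn_add {g h : ℝ → ℝ} (hg : Cn g) (hh : Cn h) : Cn (fun t => g t + h t) := by
  intro ι _ w t ht H
  have h1 := hg ι w t ht H
  have h2 := hh ι w t ht H
  simp only [mul_add, Finset.sum_add_distrib]
  linarith

theorem Cn_smul {g : ℝ → ℝ} (hg : Cn g) {c : ℝ} (hc : 0 ≤ c) : Cn (fun t => c * g t) := by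
  intro ι _ w t ht H
  have h1 := hg ι w t ht H
  have : ∑ i, w i * (c * g (t i)) = c * ∑ i, w i * g (t i) := by
    rw [Finset.mul_sum]; exact Finset.sum_congr rfl (fun i _ => by ring)
  rw [this]; exact mul_nonneg hc h1

theorem Cn_lim {κ : Type} {l : Filter κ} [l.NeBot] {F : κ → ℝ → ℝ} {g : ℝ → ℝ}
    (hF : ∀ᶠ k in l, Cn (F k)) (hl : ∀ t, 0 < t → Tendsto (fun k => F k t) l (𝓝 (g t))) :
    Cn g := by
  intro ι _ w t ht H
  have h1 : Tendsto (fun k => ∑ i, w i * F k (t i)) l (𝓝 (∑ i, w i * g (t i))) :=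
    tendsto_finsetSum _ (fun i _ => (hl (t i) (ht i)).const_mul (w i))
  exact ge_of_tendsto h1 (hF.mono fun k hk => hk ι w t ht H)

theorem Cn_int {F : ℝ → ℝ → ℝ} (hF : ∀ y ∈ Icc (0 : ℝ) 1, Cn (F y))
    (hi : ∀ t, 0 < t → IntervalIntegrable (fun y => F y t) MeasureTheory.volume 0 1) :
    Cn (fun t => ∫ y in (0 : ℝ)..1, F y t) := by
  intro ι _ w t ht H
  have : ∑ i, w i * ∫ y in (0 : ℝ)..1, F y (t i) = ∫ y in (0 : ℝ)..1, ∑ i, w i * F y (t i) := by
    rw [intervalIntegral.integral_finsetSum (fun i _ => (hi (t i) (ht i)).const_mul (w i))]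
    exact Finset.sum_congr rfl (fun i _ => by rw [intervalIntegral.integral_const_mul])
  rw [this]
  exact intervalIntegral.integral_nonneg zero_le_one (fun y hy => hF y hy ι w t ht H)

theorem Cn_nonneg {g : ℝ → ℝ} (hg : Cn g) {t : ℝ} (ht : 0 < t) : 0 ≤ g t := by
  have := hg Unit (fun _ => 1) (fun _ => t) (fun _ => ht) (fun c _ => by
    simp only [Finset.univ_unique, Finset.sum_singleton, one_mul]; exact (Real.exp_pos _).le)
  simpa using this

theorem Cn_diff {g : ℝ → ℝ} (hg : Cn g) {h : ℝ} (hh : 0 < h) : Cn (fun t => g t - g (t + h)) := by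
  intro ι _ w t ht H
  have := hg (ι ⊕ ι) (Sum.elim w (fun i => - w i)) (Sum.elim t (fun i => t i + h))
    (by rintro (i | i)
        · exact ht i
        · exact add_pos (ht i) hh)
    (by intro c hc
        have e : ∑ i : ι ⊕ ι, Sum.elim w (fun i => - w i) i *
            Real.exp (-(c * Sum.elim t (fun i => t i + h) i)) =
            (1 - Real.exp (-(c * h))) * ∑ i, w i * Real.exp (-(c * t i)) := by
          rw [Fintype.sum_sum_type, Finset.mul_sum, ← Finset.sum_add_distrib]
          refine Finset.sum_congr rfl (fun i _ => ?_)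
          simp only [Sum.elim_inl, Sum.elim_inr]
          rw [show -(c * (t i + h)) = -(c * t i) + -(c * h) by ring, Real.exp_add]; ring
        rw [e]
        refine mul_nonneg ?_ (H c hc)
        have : Real.exp (-(c * h)) ≤ 1 := Real.exp_le_one_iff.2 (by nlinarith)
        linarith)
  rw [Fintype.sum_sum_type, ← Finset.sum_add_distrib] at this
  simp only [Sum.elim_inl, Sum.elim_inr] at this
  rwa [Finset.sum_congr rfl (fun i _ => by ring : ∀ i ∈ Finset.univ,
    w i * (g (t i) - g (t i + h)) = w i * g (t i) + - w i * g (t i + h))]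

theorem Cn_deriv {g : ℝ → ℝ} (hg : Cn g) (hd : Differentiable ℝ g) :
    Cn (fun t => - deriv g t) := by
  refine Cn_lim (l := 𝓝[>] (0 : ℝ)) (F := fun h t => h⁻¹ * (g t - g (t + h))) ?_ ?_
  · filter_upwards [self_mem_nhdsWithin] with h hh
    exact Cn_smul (Cn_diff hg hh) (inv_nonneg.2 (le_of_lt hh))
  · intro t _
    have h1 := (hd t).hasDerivAt
    rw [hasDerivAt_iff_tendsto_slope_zero] at h1
    have h2 := (h1.mono_left (nhdsWithin_mono _ (fun x (hx : x ∈ Ioi (0 : ℝ)) =>
      (ne_of_gt hx : x ≠ 0)))).neg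
    refine h2.congr (fun h => ?_)
    simp only [smul_eq_mul]; ring

theorem Cn_iter (n : ℕ) : ∀ {g : ℝ → ℝ}, Cn g → ContDiff ℝ ⊤ g →
    Cn (fun t => (-1) ^ n * iteratedDeriv n g t) := by
  induction n with
  | zero => intro g hg _; simpa using hg
  | succ n ih =>
    intro g hg hs
    have h1 : ContDiff ℝ ⊤ (fun t => - deriv g t) := by
      have : ContDiff ℝ ⊤ (deriv g) := by
        have h := (contDiff_omega_iff_analyticOnNhd.1 hs).deriv
        exact contDiff_omega_iff_analyticOnNhd.2 h
      exact this.neg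
    have h2 := ih (Cn_deriv hg (hs.differentiable (by simp))) h1
    refine Cn_congr h2 (fun t _ => ?_)
    rw [iteratedDeriv_succ', pow_succ]
    have : (fun t => - deriv g t) = - deriv g := rfl
    rw [this, iteratedDeriv_neg]; ring

theorem Cn_cvx {g : ℝ → ℝ} (hg : Cn g) {x y p q : ℝ} (hx : 0 < x) (hy : 0 < y) (hp : 0 ≤ p)
    (hq : 0 ≤ q) (hpq : p + q = 1) (c : ℝ) :
    Real.exp (c * (p * x + q * y)) * g (p * x + q * y) ≤
      p * Real.exp (c * x) * g x + q * Real.exp (c * y) * g y := by
  have hz : 0 < p * x + q * y := by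
    rcases eq_or_lt_of_le hp with h | h
    · rw [← h] at hpq ⊢; rw [show q = 1 by linarith]; linarith
    · nlinarith [mul_pos h hx, mul_nonneg hq hy.le]
  have := hg (Fin 3) ![p * Real.exp (c * x), q * Real.exp (c * y), - Real.exp (c * (p * x + q * y))]
    ![x, y, p * x + q * y]
    (by intro i; fin_cases i <;> simpa)
    (by intro d _
        simp only [Fin.sum_univ_three, Matrix.cons_val_zero, Matrix.cons_val_one,
          Matrix.cons_val_two, Matrix.head_cons, Matrix.tail_cons]
        have h := convexOn_exp.2 (mem_univ ((c - d) * x)) (mem_univ ((c - d) * y)) hp hq hpq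
        simp only [smul_eq_mul] at h
        rw [mul_assoc, mul_assoc, neg_mul, ← Real.exp_add, ← Real.exp_add, ← Real.exp_add,
          show c * x + -(d * x) = (c - d) * x by ring, show c * y + -(d * y) = (c - d) * y by ring,
          show c * (p * x + q * y) + -(d * (p * x + q * y)) = p * ((c - d) * x) + q * ((c - d) * y)
            by ring]
        linarith)
  simp only [Fin.sum_univ_three, Matrix.cons_val_zero, Matrix.cons_val_one,
    Matrix.cons_val_two, Matrix.head_cons, Matrix.tail_cons] at this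
  linarith

theorem Cn_pos {g : ℝ → ℝ} (hg : Cn g) (hc : Continuous g) (h0 : 0 < g 0) {t : ℝ} (ht : 0 < t) :
    0 < g t := by
  by_contra hn
  have hz : g t = 0 := le_antisymm (not_lt.1 hn) (Cn_nonneg hg ht)
  have key : ∀ z, 0 < z → z < t → g z ≤ 0 := by
    intro z hz0 hzt
    have hx : 0 < z / 2 := by linarith
    have hd : 0 < t - z / 2 := by linarith
    have hp : 0 ≤ (t - z) / (t - z / 2) := div_nonneg (by linarith) hd.le
    have hq : 0 ≤ (z / 2) / (t - z / 2) := div_nonneg hx.le hd.le
    have hpq : (t - z) / (t - z / 2) + (z / 2) / (t - z / 2) = 1 := by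
      rw [← add_div, div_eq_one_iff_eq hd.ne']; ring
    have hzz : (t - z) / (t - z / 2) * (z / 2) + (z / 2) / (t - z / 2) * t = z := by
      rw [div_mul_eq_mul_div, div_mul_eq_mul_div, ← add_div, div_eq_iff hd.ne']; ring
    have hb : ∀ c : ℝ, g z ≤ (t - z) / (t - z / 2) * g (z / 2) * Real.exp (-(z / 2) * c) := by
      intro c
      have h := Cn_cvx hg hx ht hp hq hpq c
      rw [hzz, hz, mul_zero, add_zero] at h
      have e : Real.exp (c * (z / 2)) = Real.exp (c * z) * Real.exp (-(z / 2) * c) := by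
        rw [← Real.exp_add]; congr 1; ring
      rw [e] at h
      have hp' := Real.exp_pos (c * z)
      refine le_of_mul_le_mul_left ?_ hp'
      linarith
    have hl : Tendsto (fun c : ℝ => (t - z) / (t - z / 2) * g (z / 2) * Real.exp (-(z / 2) * c))
        atTop (𝓝 ((t - z) / (t - z / 2) * g (z / 2) * 0)) :=
      (Real.tendsto_exp_atBot.comp (tendsto_id.const_mul_atTop_of_neg (by linarith))).const_mul _
    rw [mul_zero] at hl
    exact ge_of_tendsto hl (Eventually.of_forall hb)
  have h1 : Tendsto g (𝓝[>] 0) (𝓝 (g 0)) := hc.continuousAt.tendsto.mono_left nhdsWithin_le_nhds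
  have h2 : g 0 ≤ 0 := le_of_tendsto h1 (by
    filter_upwards [Ioo_mem_nhdsGT ht] with z hz' using key z hz'.1 hz'.2)
  linarith

theorem Cn_logcvx {g : ℝ → ℝ} (hg : Cn g) (hpos : ∀ t, 0 < t → 0 < g t) :
    ConvexOn ℝ (Ioi 0) (fun t => Real.log (g t)) := by
  refine ⟨convex_Ioi 0, fun x hx y hy p q hp hq hpq => ?_⟩
  simp only [smul_eq_mul]
  by_cases hxy : x = y
  · subst hxy
    rw [← add_mul, ← add_mul, hpq, one_mul, one_mul]
  have hx' : 0 < x := hx
  have hy' : 0 < y := hy
  have hz : 0 < p * x + q * y := by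
    have := (convex_Ioi (0 : ℝ)) hx hy hp hq hpq
    simpa using this
  set c := (Real.log (g y) - Real.log (g x)) / (x - y) with hc
  have hcc : c * x + Real.log (g x) = c * y + Real.log (g y) := by
    have : c * (x - y) = Real.log (g y) - Real.log (g x) := by
      rw [hc]; field_simp [sub_ne_zero.2 hxy]
    linarith
  have h := Cn_cvx hg hx' hy' hp hq hpq c
  have e1 : Real.exp (c * x) * g x = Real.exp (c * x + Real.log (g x)) := by
    rw [Real.exp_add, Real.exp_log (hpos x hx')]
  have e2 : Real.exp (c * y) * g y = Real.exp (c * x + Real.log (g x)) := by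
    rw [hcc, Real.exp_add, Real.exp_log (hpos y hy')]
  have e3 : Real.exp (c * (p * x + q * y)) * g (p * x + q * y) =
      Real.exp (c * (p * x + q * y) + Real.log (g (p * x + q * y))) := by
    rw [Real.exp_add, Real.exp_log (hpos _ hz)]
  rw [mul_assoc, mul_assoc, e1, e2, e3, ← add_mul, hpq, one_mul, Real.exp_le_exp] at h
  have : c * x + Real.log (g x) = p * (c * x + Real.log (g x)) + q * (c * y + Real.log (g y)) := by
    rw [← hcc, ← add_mul, hpq, one_mul]
  nlinarith

end Pool.Agent.H.MP_38d52f_an
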