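import Mathlib
import Pool.Agent.H.MP_38d52f_an.A

set_option autoImplicit false

open Filter Topology Set Function MeasureTheory

namespace Pool.Agent.H.MP_38d52f_an

/-- One triangle of the square. -/
theorem tri (a b t : ℝ) (ha : 0 < a) :
    ∫ l in (0 : ℝ)..1, 2 * t * a * b * Real.exp (t * a ^ 2 * l ^ 2) *
      (∫ y in (0 : ℝ)..l, Real.exp (t * b ^ 2 * y ^ 2)) =
    (∫ u in (0 : ℝ)..1, a * b / (a ^ 2 + b ^ 2 * u ^ 2) * Real.exp (t * (a ^ 2 + b ^ 2 * u ^ 2))) -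
      Real.arctan (b / a) := by
  have hden : ∀ u : ℝ, 0 < a ^ 2 + b ^ 2 * u ^ 2 := fun u => by positivity
  have hc : Continuous (fun p : ℝ × ℝ =>
      2 * t * a * b * p.1 * Real.exp (t * p.1 ^ 2 * (a ^ 2 + b ^ 2 * p.2 ^ 2))) := by fun_prop
  have hsw := intervalIntegral_intervalIntegral_swap
    (F := fun l u => 2 * t * a * b * l * Real.exp (t * l ^ 2 * (a ^ 2 + b ^ 2 * u ^ 2)))
    (a := 0) (b := 1) (c := 0) (d := 1)
    ((hc.continuousOn.integrableOn_compact (isCompact_uIcc.prod isCompact_uIcc)).mono_set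
      (prod_mono uIoc_subset_uIcc uIoc_subset_uIcc))
  have e1 : ∀ l : ℝ, 2 * t * a * b * Real.exp (t * a ^ 2 * l ^ 2) *
      (∫ y in (0 : ℝ)..l, Real.exp (t * b ^ 2 * y ^ 2)) =
      ∫ u in (0 : ℝ)..1, 2 * t * a * b * l * Real.exp (t * l ^ 2 * (a ^ 2 + b ^ 2 * u ^ 2)) := by
    intro l
    have h := intervalIntegral.mul_integral_comp_mul_left (a := 0) (b := 1)
      (f := fun y => Real.exp (t * b ^ 2 * y ^ 2)) l
    rw [mul_zero, mul_one] at h
    rw [← h, ← intervalIntegral.integral_const_mul, ← intervalIntegral.integral_const_mul]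
    refine intervalIntegral.integral_congr (fun u _ => ?_)
    beta_reduce
    rw [show t * l ^ 2 * (a ^ 2 + b ^ 2 * u ^ 2) = t * a ^ 2 * l ^ 2 + t * b ^ 2 * (l * u) ^ 2 by ring,
      Real.exp_add]; ring
  have e2 : ∀ u : ℝ, ∫ l in (0 : ℝ)..1,
      2 * t * a * b * l * Real.exp (t * l ^ 2 * (a ^ 2 + b ^ 2 * u ^ 2)) =
      a * b / (a ^ 2 + b ^ 2 * u ^ 2) * Real.exp (t * (a ^ 2 + b ^ 2 * u ^ 2)) -
        a * b / (a ^ 2 + b ^ 2 * u ^ 2) := by
    intro u
    have hd : ∀ l ∈ uIcc (0 : ℝ) 1, HasDerivAt (fun l : ℝ => a * b / (a ^ 2 + b ^ 2 * u ^ 2) *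
        Real.exp (t * l ^ 2 * (a ^ 2 + b ^ 2 * u ^ 2)))
        (2 * t * a * b * l * Real.exp (t * l ^ 2 * (a ^ 2 + b ^ 2 * u ^ 2))) l := by
      intro l _
      have h := ((((hasDerivAt_pow 2 l).const_mul t).mul_const
        (a ^ 2 + b ^ 2 * u ^ 2)).exp).const_mul (a * b / (a ^ 2 + b ^ 2 * u ^ 2))
      refine h.congr_deriv ?_
      have := (hden u).ne'
      field_simp
      norm_num
      ring
    rw [intervalIntegral.integral_eq_sub_of_hasDerivAt hd (Continuous.intervalIntegrable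
      (by fun_prop) _ _)]
    simp
  have e3 : ∫ u in (0 : ℝ)..1, a * b / (a ^ 2 + b ^ 2 * u ^ 2) = Real.arctan (b / a) := by
    have hd : ∀ u ∈ uIcc (0 : ℝ) 1, HasDerivAt (fun u : ℝ => Real.arctan (b / a * u))
        (a * b / (a ^ 2 + b ^ 2 * u ^ 2)) u := by
      intro u _
      have h := ((hasDerivAt_id' u).const_mul (b / a)).arctan
      refine h.congr_deriv ?_
      have := (hden u).ne'
      field_simp
    rw [intervalIntegral.integral_eq_sub_of_hasDerivAt hd (Continuous.intervalIntegrable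
      (continuous_const.div (by fun_prop) (fun u => (hden u).ne')) _ _)]
    simp
  simp_rw [e1]
  rw [hsw]
  simp_rw [e2]
  have k1 : Continuous (fun u : ℝ => a * b / (a ^ 2 + b ^ 2 * u ^ 2)) :=
    continuous_const.div (by fun_prop) (fun u => (hden u).ne')
  have k2 : Continuous (fun u : ℝ => a * b / (a ^ 2 + b ^ 2 * u ^ 2) *
      Real.exp (t * (a ^ 2 + b ^ 2 * u ^ 2))) := k1.mul (by fun_prop)
  rw [intervalIntegral.integral_sub (k2.intervalIntegrable _ _) (k1.intervalIntegrable _ _), e3]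

theorem polar (a b t : ℝ) (ha : 0 < a) (hb : 0 < b) :
    2 * t * a * b * (∫ x in (0 : ℝ)..1, Real.exp (t * a ^ 2 * x ^ 2)) *
      (∫ y in (0 : ℝ)..1, Real.exp (t * b ^ 2 * y ^ 2)) + Real.pi / 2 =
    (∫ u in (0 : ℝ)..1, a * b / (a ^ 2 + b ^ 2 * u ^ 2) * Real.exp (t * (a ^ 2 + b ^ 2 * u ^ 2))) +
    (∫ u in (0 : ℝ)..1, b * a / (b ^ 2 + a ^ 2 * u ^ 2) * Real.exp (t * (b ^ 2 + a ^ 2 * u ^ 2))) := by
  have h1 := tri a b t ha
  have h2 := tri b a t hb
  have h3 : Real.arctan (b / a) + Real.arctan (a / b) = Real.pi / 2 := by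
    have := Real.arctan_inv_of_pos (div_pos hb ha)
    rw [inv_div] at this; linarith
  have dA : ∀ (c l : ℝ), HasDerivAt (fun l => ∫ x in (0 : ℝ)..l, Real.exp (t * c ^ 2 * x ^ 2))
      (Real.exp (t * c ^ 2 * l ^ 2)) l := fun c l =>
    (Continuous.integral_hasStrictDerivAt (f := fun x => Real.exp (t * c ^ 2 * x ^ 2))
      (by fun_prop) 0 l).hasDerivAt
  have cA : ∀ c : ℝ, Continuous (fun l => ∫ x in (0 : ℝ)..l, Real.exp (t * c ^ 2 * x ^ 2)) :=
    fun c => continuous_iff_continuousAt.2 (fun l => (dA c l).continuousAt)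
  have hd : ∀ l ∈ uIcc (0 : ℝ) 1, HasDerivAt (fun l => 2 * t * a * b *
      (∫ x in (0 : ℝ)..l, Real.exp (t * a ^ 2 * x ^ 2)) *
      (∫ y in (0 : ℝ)..l, Real.exp (t * b ^ 2 * y ^ 2)))
      (2 * t * a * b * Real.exp (t * a ^ 2 * l ^ 2) *
        (∫ y in (0 : ℝ)..l, Real.exp (t * b ^ 2 * y ^ 2)) +
       2 * t * b * a * Real.exp (t * b ^ 2 * l ^ 2) *
        (∫ y in (0 : ℝ)..l, Real.exp (t * a ^ 2 * y ^ 2))) l := by
    intro l _
    have h := ((dA a l).const_mul (2 * t * a * b)).mul (dA b l)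
    refine h.congr_deriv ?_
    ring
  have c1 : Continuous (fun l => 2 * t * a * b * Real.exp (t * a ^ 2 * l ^ 2) *
        (∫ y in (0 : ℝ)..l, Real.exp (t * b ^ 2 * y ^ 2))) :=
    Continuous.mul (by fun_prop) (cA b)
  have c2 : Continuous (fun l => 2 * t * b * a * Real.exp (t * b ^ 2 * l ^ 2) *
        (∫ y in (0 : ℝ)..l, Real.exp (t * a ^ 2 * y ^ 2))) :=
    Continuous.mul (by fun_prop) (cA a)
  have h4 := intervalIntegral.integral_eq_sub_of_hasDerivAt hd ((c1.add c2).intervalIntegrable _ _)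
  rw [intervalIntegral.integral_add (c1.intervalIntegrable _ _) (c2.intervalIntegrable _ _),
    h1, h2] at h4
  simp only [intervalIntegral.integral_same, mul_zero, sub_zero] at h4
  linarith

def Good (e o e' o' : ℝ → ℝ) : Prop :=
  ∀ a b : ℝ, 0 ≤ a → 0 ≤ b →
    Cn (fun t => e (a ^ 2 * t) * e' (b ^ 2 * t) + t * (a * o (a ^ 2 * t)) * (b * o' (b ^ 2 * t)))

noncomputable def o0 (t : ℝ) : ℝ :=
  2 / Real.sqrt Real.pi * ∫ v in (0 : ℝ)..1, Real.exp (-t * (1 - v ^ 2))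

theorem o0_eq (c t : ℝ) : o0 (c ^ 2 * t) = 2 / Real.sqrt Real.pi * Real.exp (-(c ^ 2 * t)) *
    ∫ x in (0 : ℝ)..1, Real.exp (t * c ^ 2 * x ^ 2) := by
  rw [o0, mul_assoc, ← intervalIntegral.integral_const_mul (Real.exp (-(c ^ 2 * t)))]
  congr 1
  refine intervalIntegral.integral_congr (fun u _ => ?_)
  beta_reduce
  rw [← Real.exp_add]; congr 1; ring

theorem half_piece (a b : ℝ) (ha : 0 < a) (hb : 0 < b) :
    Cn (fun t => Real.exp (-(a ^ 2 * t)) * Real.exp (-(b ^ 2 * t)) *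
      ∫ u in (0 : ℝ)..1, a * b / (a ^ 2 + b ^ 2 * u ^ 2) * Real.exp (t * (a ^ 2 + b ^ 2 * u ^ 2))) := by
  have hden : ∀ u : ℝ, 0 < a ^ 2 + b ^ 2 * u ^ 2 := fun u => by positivity
  have h := Cn_int (F := fun u t => a * b / (a ^ 2 + b ^ 2 * u ^ 2) *
    Real.exp (-(b ^ 2 * (1 - u ^ 2) * t)))
    (fun u hu => Cn_smul (Cn_exp (mul_nonneg (sq_nonneg b) (by nlinarith [hu.1, hu.2])))
      (div_pos (mul_pos ha hb) (hden u)).le)
    (fun t _ => Continuous.intervalIntegrable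
      ((continuous_const.div (by fun_prop) (fun u => (hden u).ne')).mul (by fun_prop)) _ _)
  refine Cn_congr h (fun t _ => ?_)
  rw [← intervalIntegral.integral_const_mul]
  refine intervalIntegral.integral_congr (fun u _ => ?_)
  beta_reduce
  rw [show -(b ^ 2 * (1 - u ^ 2) * t) = -(a ^ 2 * t) + -(b ^ 2 * t) + t * (a ^ 2 + b ^ 2 * u ^ 2)
    by ring, Real.exp_add, Real.exp_add]; ring

theorem good_base : Good (fun t => Real.exp (-t)) o0 (fun t => Real.exp (-t)) o0 := by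
  intro a b ha hb
  rcases eq_or_lt_of_le ha with h | ha'
  · subst h
    refine Cn_congr (Cn_exp (sq_nonneg b)) (fun t _ => by simp)
  rcases eq_or_lt_of_le hb with h | hb'
  · subst h
    refine Cn_congr (Cn_exp (sq_nonneg a)) (fun t _ => by simp)
  have hp := Real.pi_pos
  have h := Cn_smul (Cn_add (half_piece a b ha' hb') (half_piece b a hb' ha'))
    (show 0 ≤ 2 / Real.pi by positivity)
  refine Cn_congr h (fun t _ => ?_)
  have hpol := polar a b t ha' hb'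
  beta_reduce
  rw [o0_eq, o0_eq]
  have hs : Real.sqrt Real.pi * Real.sqrt Real.pi = Real.pi := Real.mul_self_sqrt hp.le
  have hs0 : Real.sqrt Real.pi ≠ 0 := (Real.sqrt_pos.2 hp).ne'
  have e : 2 / Real.sqrt Real.pi * (2 / Real.sqrt Real.pi) = 2 / Real.pi * 2 := by
    rw [div_mul_div_comm, hs]; ring
  have e' : 2 / Real.pi * (Real.pi / 2) = 1 := by field_simp
  generalize (∫ x in (0 : ℝ)..1, Real.exp (t * a ^ 2 * x ^ 2)) = A at *
  generalize (∫ x in (0 : ℝ)..1, Real.exp (t * b ^ 2 * x ^ 2)) = B at *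
  generalize (∫ u in (0 : ℝ)..1, a * b / (a ^ 2 + b ^ 2 * u ^ 2) *
    Real.exp (t * (a ^ 2 + b ^ 2 * u ^ 2))) = I at *
  generalize (∫ u in (0 : ℝ)..1, b * a / (b ^ 2 + a ^ 2 * u ^ 2) *
    Real.exp (t * (b ^ 2 + a ^ 2 * u ^ 2))) = J at *
  generalize Real.exp (-(a ^ 2 * t)) = X at *
  generalize Real.exp (-(b ^ 2 * t)) = Y at *
  generalize 2 / Real.sqrt Real.pi = r at *
  generalize 2 / Real.pi = s at *
  calc s * (X * Y * I + Y * X * J) = X * Y * s * (I + J) := by ring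
    _ = X * Y * s * (2 * t * a * b * A * B + Real.pi / 2) := by rw [hpol]
    _ = X * Y * (s * (Real.pi / 2)) + t * a * b * X * Y * A * B * (s * 2) := by ring
    _ = _ := by rw [e', ← e]; ring

theorem good_symm {e o e' o' : ℝ → ℝ} (h : Good e o e' o') : Good e' o' e o := by
  intro a b ha hb
  exact Cn_congr (h b a hb ha) (fun t _ => by ring)

theorem good_step {e o e' o' e1 o1 : ℝ → ℝ} (h : Good e o e' o') (he : Continuous e)
    (ho : Continuous o) {β : ℝ} (h0 : 0 ≤ β) (h1 : β ≤ 1) (m : ℕ)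
    (he1 : ∀ t, e1 t = β * e t + (1 - β) * ∫ y in (0 : ℝ)..1, (m + 1) * y ^ m * y ^ 0 * e (y ^ 2 * t))
    (ho1 : ∀ t, o1 t = β * o t + (1 - β) * ∫ y in (0 : ℝ)..1, (m + 1) * y ^ m * y ^ 1 * o (y ^ 2 * t)) :
    Good e1 o1 e' o' := by
  intro a b ha hb
  have hI := Cn_int (F := fun y t => (m + 1) * y ^ m * (e ((y * a) ^ 2 * t) * e' (b ^ 2 * t) +
      t * ((y * a) * o ((y * a) ^ 2 * t)) * (b * o' (b ^ 2 * t))))
    (fun y hy => Cn_smul (h (y * a) b (mul_nonneg hy.1 ha) hb)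
      (mul_nonneg (by positivity) (pow_nonneg hy.1 m)))
    (fun t _ => Continuous.intervalIntegrable (by fun_prop) _ _)
  refine Cn_congr (Cn_add (Cn_smul (h a b ha hb) h0) (Cn_smul hI (sub_nonneg.2 h1))) (fun t _ => ?_)
  rw [he1, ho1]
  have : (∫ y in (0 : ℝ)..1, (m + 1) * y ^ m * (e ((y * a) ^ 2 * t) * e' (b ^ 2 * t) +
      t * ((y * a) * o ((y * a) ^ 2 * t)) * (b * o' (b ^ 2 * t)))) =
      (∫ y in (0 : ℝ)..1, (m + 1) * y ^ m * y ^ 0 * e (y ^ 2 * (a ^ 2 * t))) * e' (b ^ 2 * t) +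
      (∫ y in (0 : ℝ)..1, (m + 1) * y ^ m * y ^ 1 * o (y ^ 2 * (a ^ 2 * t))) *
        (t * a * (b * o' (b ^ 2 * t))) := by
    rw [← intervalIntegral.integral_mul_const, ← intervalIntegral.integral_mul_const,
      ← intervalIntegral.integral_add (Continuous.intervalIntegrable (by fun_prop) _ _)
        (Continuous.intervalIntegrable (by fun_prop) _ _)]
    refine intervalIntegral.integral_congr (fun y _ => ?_)
    beta_reduce
    rw [show (y * a) ^ 2 * t = y ^ 2 * (a ^ 2 * t) by ring]; ring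
  rw [this]; ring

end Pool.Agent.H.MP_38d52f_an
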