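import Mathlib
import Pool.Agent.H.MP_38d52f_an.B

set_option autoImplicit false

open Filter Topology Set Function MeasureTheory

namespace Pool.Agent.H.MP_38d52f_an

noncomputable def S (c : ℕ → ℝ) (t : ℝ) : ℝ := ∑' j, c j * (-t) ^ j

def Ent (c : ℕ → ℝ) : Prop := ∀ R : ℝ, 0 ≤ R → Summable (fun j => |c j| * R ^ j)

theorem Ent.mono {c d : ℕ → ℝ} (hd : Ent d) (h : ∀ j, |c j| ≤ |d j|) : Ent c := fun R hR =>
  Summable.of_nonneg_of_le (fun j => by positivity)
    (fun j => mul_le_mul_of_nonneg_right (h j) (pow_nonneg hR j)) (hd R hR)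

theorem Ent.summable {c : ℕ → ℝ} (hc : Ent c) (t : ℝ) : Summable (fun j => c j * (-t) ^ j) :=
  Summable.of_norm (by
    simpa only [norm_mul, norm_pow, norm_neg, Real.norm_eq_abs] using hc |t| (abs_nonneg t))

theorem Ent.smooth {c : ℕ → ℝ} (hc : Ent c) : ContDiff ℝ ⊤ (S c) := by
  have hr : (FormalMultilinearSeries.ofScalars ℝ c).radius = ⊤ :=
    FormalMultilinearSeries.radius_eq_top_of_summable_norm _ (fun r => by
      simpa only [FormalMultilinearSeries.ofScalars_norm, Real.norm_eq_abs] using hc r r.2)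
  have ha := (FormalMultilinearSeries.ofScalars ℝ c).analyticOnNhd
  rw [hr] at ha
  have h1 : ContDiff ℝ ⊤ (FormalMultilinearSeries.ofScalars ℝ c).sum :=
    contDiff_omega_iff_analyticOnNhd.2 (fun x _ => ha x (by simp))
  have : S c = fun t => (FormalMultilinearSeries.ofScalars ℝ c).sum (-t) := by
    funext t
    have := FormalMultilinearSeries.ofScalars_sum_eq c (-t)
    simp only [smul_eq_mul] at this
    rw [S, ← this]; rfl
  rw [this]
  exact h1.comp contDiff_neg

theorem gamma_lb {s R : ℝ} (hs : 1 ≤ s) (hR : 0 < R) :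
    R ^ (s - 1) * Real.exp (-R) ≤ Real.Gamma s := by
  have hs0 : 0 < s := by linarith
  rw [Real.Gamma_eq_integral hs0, ← integral_exp_neg_Ioi, ← integral_const_mul]
  have hI := Real.GammaIntegral_convergent hs0
  calc ∫ x in Ioi R, R ^ (s - 1) * Real.exp (-x)
      ≤ ∫ x in Ioi R, Real.exp (-x) * x ^ (s - 1) := by
        refine setIntegral_mono_on ((integrableOn_exp_neg_Ioi R).const_mul _)
          (hI.mono_set (Ioi_subset_Ioi hR.le)) measurableSet_Ioi (fun x hx => ?_)
        rw [mul_comm]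
        exact mul_le_mul_of_nonneg_left
          (Real.rpow_le_rpow hR.le (le_of_lt hx) (by linarith)) (Real.exp_pos _).le
    _ ≤ _ := by
        refine setIntegral_mono_set hI ?_ (Ioi_subset_Ioi hR.le).eventuallyLE
        filter_upwards [ae_restrict_mem measurableSet_Ioi] with x hx
        exact mul_nonneg (Real.exp_pos _).le (Real.rpow_nonneg (le_of_lt hx) _)

theorem ent_gamma {β b : ℝ} (hβ : 0 < β) (hb : 1 ≤ b) :
    Ent (fun j => 1 / Real.Gamma (β * j + b)) := by
  intro R hR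
  set Q := (2 * (R + 1)) ^ (1 / β) with hQ
  have hQ1 : 1 ≤ Q := Real.one_le_rpow (by linarith) (by positivity)
  have hQ0 : 0 < Q := by linarith
  have hQβ : Q ^ β = 2 * (R + 1) := by
    rw [hQ, ← Real.rpow_mul (by linarith), one_div, inv_mul_cancel₀ hβ.ne', Real.rpow_one]
  refine Summable.of_nonneg_of_le (fun j => by positivity) (fun j => ?_)
    (summable_geometric_two.mul_left (Real.exp Q))
  have hj : (0 : ℝ) ≤ β * j := by positivity
  have h1 := gamma_lb (s := β * j + b) (by linarith) hQ0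
  have h2 : (2 * (R + 1)) ^ j ≤ Q ^ (β * j + b - 1) := by
    rw [← hQβ, ← Real.rpow_natCast, ← Real.rpow_mul hQ0.le]
    exact Real.rpow_le_rpow_of_exponent_le hQ1 (by linarith)
  have hG : 0 < Real.Gamma (β * j + b) := Real.Gamma_pos_of_pos (by linarith)
  rw [abs_of_pos (one_div_pos.2 hG), one_div_mul_eq_div, div_le_iff₀ hG]
  have h3 : R ^ j ≤ (1 / 2) ^ j * (2 * (R + 1)) ^ j := by
    rw [← mul_pow]; exact pow_le_pow_left₀ hR (by linarith) j
  have h4 : Real.exp Q * Real.exp (-Q) = 1 := by rw [← Real.exp_add]; simp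
  calc R ^ j ≤ (1 / 2) ^ j * Q ^ (β * j + b - 1) :=
        h3.trans (mul_le_mul_of_nonneg_left h2 (by positivity))
    _ = Real.exp Q * (1 / 2) ^ j * (Q ^ (β * j + b - 1) * Real.exp (-Q)) := by
        linear_combination (-(1 / 2 : ℝ) ^ j * Q ^ (β * j + b - 1)) * h4
    _ ≤ _ := mul_le_mul_of_nonneg_left h1 (by positivity)

theorem int_S {c : ℕ → ℝ} (hc : Ent c) {ρ g : ℝ → ℝ} (hρ : Continuous ρ) (hg : Continuous g)
    (hg1 : ∀ y ∈ Icc (0 : ℝ) 1, |g y| ≤ 1) (t : ℝ) :
    ∫ y in (0 : ℝ)..1, ρ y * S c (g y * t) =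
      S (fun j => c j * ∫ y in (0 : ℝ)..1, ρ y * g y ^ j) t := by
  obtain ⟨K, hK⟩ := isCompact_Icc.exists_bound_of_continuousOn (hρ.continuousOn (s := Icc 0 1))
  have h := intervalIntegral.hasSum_integral_of_dominated_convergence (μ := volume) (a := 0) (b := 1)
    (F := fun j y => ρ y * (c j * (-(g y * t)) ^ j)) (f := fun y => ρ y * S c (g y * t))
    (fun j _ => K * (|c j| * |t| ^ j))
    (fun j => Continuous.aestronglyMeasurable (by fun_prop))
    (fun j => Eventually.of_forall (fun y hy => by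
      have hy' : y ∈ Icc (0 : ℝ) 1 := by
        rw [uIoc_of_le zero_le_one] at hy; exact Ioc_subset_Icc_self hy
      have h1 := hK y hy'
      rw [norm_mul, norm_mul, norm_pow, norm_neg, norm_mul]
      simp only [Real.norm_eq_abs] at h1 ⊢
      refine mul_le_mul h1 (mul_le_mul_of_nonneg_left (pow_le_pow_left₀ (by positivity) ?_ j)
        (abs_nonneg _)) (by positivity) ((abs_nonneg _).trans h1)
      nlinarith [hg1 y hy', abs_nonneg t, abs_nonneg (g y)]))
    (Eventually.of_forall (fun y _ => (hc |t| (abs_nonneg t)).mul_left K))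
    (continuous_const.intervalIntegrable _ _)
    (Eventually.of_forall (fun y _ => (hc.summable (g y * t)).hasSum.mul_left (ρ y)))
  rw [← h.tsum_eq, S]
  refine tsum_congr (fun j => ?_)
  rw [← intervalIntegral.integral_const_mul, ← intervalIntegral.integral_mul_const]
  refine intervalIntegral.integral_congr (fun y _ => ?_)
  beta_reduce
  rw [show -(g y * t) = g y * (-t) by ring, mul_pow]; ring

noncomputable def P (β : ℝ) (N : ℕ) (s : ℝ) : ℝ :=
  ∏ n ∈ Finset.range N, (n + 1 + β * s) / (n + 1 + s)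

theorem P_mem {β s : ℝ} (h0 : 0 ≤ β) (h1 : β ≤ 1) (hs : 0 ≤ s) (N : ℕ) :
    0 ≤ P β N s ∧ P β N s ≤ 1 := by
  refine ⟨Finset.prod_nonneg (fun n _ => by positivity),
    Finset.prod_le_one (fun n _ => by positivity) (fun n _ => ?_)⟩
  rw [div_le_one (by positivity)]; nlinarith

noncomputable def cf (β : ℝ) (k N : ℕ) (j : ℕ) : ℝ :=
  P β N (j + k / 2) * (1 / Real.Gamma (1 * j + (k / 2 + 1)))

theorem cf_ent {β : ℝ} (h0 : 0 ≤ β) (h1 : β ≤ 1) (k N : ℕ) : Ent (cf β k N) := by
  refine (ent_gamma (β := 1) (b := k / 2 + 1) one_pos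
    (by have : (0 : ℝ) ≤ k / 2 := by positivity
        linarith)).mono (fun j => ?_)
  have h := P_mem h0 h1 (s := j + k / 2) (by positivity) N
  rw [cf, abs_mul, abs_of_nonneg h.1]
  exact mul_le_of_le_one_left (abs_nonneg _) h.2

theorem cf_step {β : ℝ} (h0 : 0 ≤ β) (h1 : β ≤ 1) (k N : ℕ) (t : ℝ) :
    S (cf β k (N + 1)) t = β * S (cf β k N) t + (1 - β) * ∫ y in (0 : ℝ)..1,
      (((2 * N + 1 : ℕ) : ℝ) + 1) * y ^ (2 * N + 1) * y ^ k * S (cf β k N) (y ^ 2 * t) := by
  rw [int_S (cf_ent h0 h1 k N) (by fun_prop) (by fun_prop) (fun y hy => by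
    rw [abs_of_nonneg (sq_nonneg y)]; nlinarith [hy.1, hy.2])]
  have hI : ∀ j : ℕ, ∫ y in (0 : ℝ)..1, (((2 * N + 1 : ℕ) : ℝ) + 1) * y ^ (2 * N + 1) * y ^ k *
      (y ^ 2) ^ j = ((N : ℝ) + 1) / (N + 1 + (j + k / 2)) := by
    intro j
    have : ∀ y : ℝ, (((2 * N + 1 : ℕ) : ℝ) + 1) * y ^ (2 * N + 1) * y ^ k * (y ^ 2) ^ j =
        (((2 * N + 1 : ℕ) : ℝ) + 1) * y ^ (2 * N + 1 + k + 2 * j) := by
      intro y; rw [← pow_mul, pow_add, pow_add]; ring
    simp_rw [this]
    rw [intervalIntegral.integral_const_mul, integral_pow]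
    simp only [one_pow, ne_eq, Nat.add_eq_zero_iff, one_ne_zero, and_false, not_false_eq_true,
      zero_pow, sub_zero]
    push_cast
    field_simp
    ring
  simp_rw [hI]
  have hs := (cf_ent h0 h1 k N).summable t
  have hs2 : Summable (fun j : ℕ => cf β k N j * ((N + 1) / (N + 1 + (j + k / 2))) * (-t) ^ j) := by
    refine Ent.summable (c := fun j : ℕ => cf β k N j * ((N + 1) / (N + 1 + (j + k / 2))))
      ((cf_ent h0 h1 k N).mono (fun j => ?_)) t
    rw [abs_mul]
    refine mul_le_of_le_one_right (abs_nonneg _) ?_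
    rw [abs_of_nonneg (by positivity), div_le_one (by positivity)]
    have : (0 : ℝ) ≤ j + k / 2 := by positivity
    linarith
  rw [S, S, S, ← tsum_mul_left, ← tsum_mul_left, ← (hs.mul_left β).tsum_add (hs2.mul_left _)]
  refine tsum_congr (fun j => ?_)
  simp only [cf, P, Finset.prod_range_succ]
  have : (N : ℝ) + 1 + (j + k / 2) ≠ 0 := by positivity
  generalize (j + k / 2 : ℝ) = s at *
  field_simp
  ring

theorem cf_zero0 (β t : ℝ) : S (cf β 0 0) t = Real.exp (-t) := by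
  rw [Real.exp_eq_exp_ℝ, NormedSpace.exp_eq_tsum_div, S]
  refine tsum_congr (fun j => ?_)
  simp only [cf, P, Finset.range_zero, Finset.prod_empty, Nat.cast_zero, zero_div, zero_add, one_mul]
  rw [Real.Gamma_nat_eq_factorial]; ring

theorem wal (j : ℕ) : (2 * j + 3 : ℝ) * ∫ v in (0 : ℝ)..1, (1 - v ^ 2) ^ (j + 1) =
    (2 * j + 2) * ∫ v in (0 : ℝ)..1, (1 - v ^ 2) ^ j := by
  have hd : ∀ v ∈ uIcc (0 : ℝ) 1, HasDerivAt (fun v : ℝ => v * (1 - v ^ 2) ^ (j + 1))
      ((2 * j + 3 : ℝ) * (1 - v ^ 2) ^ (j + 1) - (2 * j + 2) * (1 - v ^ 2) ^ j) v := by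
    intro v _
    have h := (hasDerivAt_id' v).mul (((hasDerivAt_pow 2 v).const_sub 1).pow (j + 1))
    refine h.congr_deriv ?_
    simp only [Nat.add_sub_cancel, Pi.pow_apply]
    push_cast
    ring
  have h := intervalIntegral.integral_eq_sub_of_hasDerivAt hd
    (Continuous.intervalIntegrable (by fun_prop) _ _)
  rw [intervalIntegral.integral_sub (Continuous.intervalIntegrable (by fun_prop) _ _)
    (Continuous.intervalIntegrable (by fun_prop) _ _), intervalIntegral.integral_const_mul,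
    intervalIntegral.integral_const_mul] at h
  simp at h
  linarith

theorem wal2 (j : ℕ) : 1 / Real.Gamma (j + 3 / 2) =
    2 / Real.sqrt Real.pi * ((1 / Real.Gamma (j + 1)) * ∫ v in (0 : ℝ)..1, (1 - v ^ 2) ^ j) := by
  induction j with
  | zero =>
    have : Real.Gamma (3 / 2) = 1 / 2 * Real.sqrt Real.pi := by
      rw [show (3 / 2 : ℝ) = 1 / 2 + 1 by norm_num, Real.Gamma_add_one (by norm_num),
        Real.Gamma_one_half_eq]
    simp only [Nat.cast_zero, zero_add, this, Real.Gamma_one, pow_zero]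
    simp
    ring
  | succ j ih =>
    have h := wal j
    have e1 : Real.Gamma (((j + 1 : ℕ) : ℝ) + 3 / 2) = (j + 3 / 2) * Real.Gamma (j + 3 / 2) := by
      rw [← Real.Gamma_add_one (by positivity)]; congr 1; push_cast; ring
    have e2 : Real.Gamma (((j + 1 : ℕ) : ℝ) + 1) = (j + 1) * Real.Gamma (j + 1) := by
      rw [← Real.Gamma_add_one (by positivity)]; congr 1; push_cast; ring
    have e3 : (∫ v in (0 : ℝ)..1, (1 - v ^ 2) ^ (j + 1)) =
        (2 * (j : ℝ) + 2) / (2 * j + 3) * ∫ v in (0 : ℝ)..1, (1 - v ^ 2) ^ j := by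
      rw [div_mul_eq_mul_div, eq_div_iff (by positivity)]; linarith
    rw [e1, e2, e3, ← one_div_mul_one_div, ih, ← one_div_mul_one_div]
    have a1 : (j : ℝ) + 3 / 2 ≠ 0 := by positivity
    have a2 : (j : ℝ) + 1 ≠ 0 := by positivity
    have a3 : (2 * j : ℝ) + 3 ≠ 0 := by positivity
    have : 1 / ((j : ℝ) + 3 / 2) = 1 / (j + 1) * ((2 * j + 2) / (2 * j + 3)) := by
      field_simp
    rw [this]; ring

theorem cf_zero1 (β t : ℝ) : S (cf β 1 0) t = o0 t := by
  have h := int_S (cf_ent (β := 0) le_rfl zero_le_one 0 0) (ρ := fun _ => 1)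
    (g := fun v => 1 - v ^ 2) continuous_const (by fun_prop) (fun y hy => by
      rw [abs_of_nonneg (by nlinarith [hy.1, hy.2])]; nlinarith [hy.1, hy.2]) t
  simp only [cf_zero0, one_mul] at h
  have e : (∫ v in (0 : ℝ)..1, Real.exp (-t * (1 - v ^ 2))) =
      ∫ v in (0 : ℝ)..1, Real.exp (-((1 - v ^ 2) * t)) :=
    intervalIntegral.integral_congr (fun v _ => by beta_reduce; congr 1; ring)
  rw [o0, e, h, S, S, ← tsum_mul_left]
  refine tsum_congr (fun j => ?_)
  simp only [cf, P, Finset.range_zero, Finset.prod_empty, Nat.cast_zero, zero_div, zero_add, one_mul,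
    Nat.cast_one]
  rw [show (j : ℝ) + (1 / 2 + 1) = j + 3 / 2 by ring, wal2]; ring

theorem good_cf {β : ℝ} (h0 : 0 ≤ β) (h1 : β ≤ 1) (N : ℕ) :
    Good (S (cf β 0 N)) (S (cf β 1 N)) (S (cf β 0 N)) (S (cf β 1 N)) := by
  have A : ∀ (e' o' : ℝ → ℝ), Good (S (cf β 0 0)) (S (cf β 1 0)) e' o' →
      ∀ M, Good (S (cf β 0 M)) (S (cf β 1 M)) e' o' := by
    intro e' o' h M
    induction M with
    | zero => exact h
    | succ M ih =>
      exact good_step ih (cf_ent h0 h1 0 M).smooth.continuous (cf_ent h0 h1 1 M).smooth.continuous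
        h0 h1 (2 * M + 1) (cf_step h0 h1 0 M) (cf_step h0 h1 1 M)
  have b0 : Good (S (cf β 0 0)) (S (cf β 1 0)) (S (cf β 0 0)) (S (cf β 1 0)) := by
    rw [funext (cf_zero0 β), funext (cf_zero1 β)]; exact good_base
  exact A _ _ (good_symm (A _ _ b0 N)) N

end Pool.Agent.H.MP_38d52f_an
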